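import Pool.Agent.Q73.GL.FIN
import Pool.Agent.Q73.GL.FM
import Pool.Agent.Q73.GL.H1
import Pool.Agent.Q73.GL.H2
import Pool.Agent.Q73.GL.H3
import Pool.Agent.Q73.GL.H4
import Pool.Agent.Q73.GL.HH
import Pool.Agent.Q73.GL.KER
import Pool.Agent.Q73.GL.LINK
import Pool.Agent.Q73.GL.MX
import Pool.Agent.Q73.GL.PER
import Pool.Agent.Q73.GL.POT
import Pool.Agent.Q73.GL.PW
import Pool.Agent.Q73.GL.RL
import Pool.Agent.Q73.GL.SM
import Pool.Agent.Q73.GL.TC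
import Pool.Agent.Q73.GL.TR
import Pool.Agent.Q73.GL.TX
import Pool.Agent.Q73.GL.V1
import Pool.Agent.Q73.GL.V2
import Pool.Agent.Q73.GL.V3
import Pool.Agent.Q73.GL.V4
import Pool.Agent.Q73.GL.XC

set_option autoImplicit false

/-!
MP_b98ad5_an, Q1 (full answer, TRUE): for all `N`, all `α > 0` and `0 ≤ θ < π / 2`, and for every
nonzero `u0` in `C_0(R^N) ∩ H^1(R^N)`, the mild solution of
`u_t = e^{iθ} [Δ u + |u|^α u] + γ u`, `u(0) = u0`, blows up in finite time for all large `γ`;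
moreover its existence time tends to `0` as `γ → ∞`.

The objects (in `Pool.Agent.Q73.GL.Stm`):
* `E N` is `EuclideanSpace ℝ (Fin N)`, `L2 N` is `Lp ℂ 2` over it, `ei θ = e^{iθ}`;
* `G N θ t x = (4 π t e^{iθ})^{-N/2} exp(-|x|² / (4 t e^{iθ}))`;
* `nl θ α γ z = e^{iθ} |z|^α z + γ z`;
* `IsMild θ α γ T u0 u`: `u` is continuous from `[0, T]` to `C_0`, `u 0 = u0`, and Duhamel's formula
  holds for `0 < t ≤ T` at every point `x`;
* `InH1 b`: the tempered distribution defined by `b` is in the Sobolev space `H^{1,2}` of Mathlib;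
* `Tmax θ α γ u0`: the supremum in `[0, ∞]` of all `T ≥ 0` such that there is a mild solution on
  `[0, T]`.
-/

namespace Pool.Agent.Results.MP_b98ad5_an.LargeGammaBlowup

open MeasureTheory Set Filter Topology
open Pool.Agent.Q73.GL
open scoped ZeroAtInfty Real

theorem result (N : ℕ) (θ α : ℝ) (hθ0 : 0 ≤ θ) (hθ : θ < π / 2) (hα : 0 < α)
    (u0 : C₀(E N, ℂ)) (b : L2 N) (hb : (b : E N → ℂ) =ᵐ[volume] (u0 : E N → ℂ)) (hH : InH1 b)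
    (h0 : u0 ≠ 0) :
    (∃ γ0 : ℝ, 0 < γ0 ∧ ∀ γ : ℝ, γ0 < γ → Tmax θ α γ u0 < ⊤) ∧
      ∀ ε : ℝ, 0 < ε → ∃ γ0 : ℝ, 0 < γ0 ∧ ∀ γ : ℝ, γ0 < γ →
        Tmax θ α γ u0 ≤ ENNReal.ofReal ε := by
  have hc := t_TC t_KER
  have hl := t_LINK t_KER
  have hx := t_XC
  have v3 := t_V3 t_V1
  have hmain : Main := t_FIN (t_H4 t_H1 (t_H2 t_H1) (t_H3 t_H1 (t_H2 t_H1))) t_RL t_V1
    (t_TR t_FM) (t_HH t_FM) t_XC (t_TX hc hl t_FM)
    (t_PER t_V1 (t_V2 t_V1) v3 (t_V4 t_V1 v3) t_XC t_MX t_PW) t_POT (t_SM t_V1 t_POT)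
  have h := hmain N θ α hθ0 hθ hα u0 b hb hH h0
  refine ⟨?_, h⟩
  obtain ⟨γ0, hγ0, hγ⟩ := h 1 one_pos
  exact ⟨γ0, hγ0, fun γ hg => (hγ γ hg).trans_lt ENNReal.ofReal_lt_top⟩

end Pool.Agent.Results.MP_b98ad5_an.LargeGammaBlowup
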